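import Pool.Agent.R200.SpanMain

/-!
# MP_6f7bab_an: a subshift, an alphabet metric and an `ε` for which the exponential growth rate
of the spanning numbers does not exist
-/

open Pool.Agent.R200.Span in
/-- There are a finite alphabet `A` with a metric `d`, an integer `k > 1`, a subshift `X` on which
`D` is a metric, and `ε > 0` such that `(P_ε)` fails. The last-but-one clause records that the
spanning numbers are attained by finite spanning sets. -/
theorem Pool.Agent.Results.MP_6f7bab_an.SpanningRateFails.result :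
    ∃ (A : Type) (_ : Finite A) (d : A → A → ℝ) (k : ℕ) (X : Set (ℕ → A)) (ε : ℝ),
      IsMetricOn Set.univ d ∧ 1 < k ∧ IsSubshift X ∧ IsMetricOn X (DD d k) ∧ 0 < ε ∧
      (∀ T : ℕ, ∃ S : Finset (ℕ → A), S.card = spanNum X d k T ε ∧ (∀ y ∈ S, y ∈ X) ∧
        ∀ x ∈ X, ∃ y ∈ S, DTle d k T ε x y) ∧
      ¬ PropP X d k ε := by
  refine ⟨AA, inferInstance, dm, 2, XX, 1, ⟨?_, ?_⟩, by norm_num, XX_subshift, DD_metric XX,
    by norm_num, span_attained, not_PropP⟩
  · intro a _ b _
    exact ⟨dm_nonneg a b, dm_eq_zero, dm_comm a b⟩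
  · intro a _ b _ c _
    exact dm_triangle a b c
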